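import Mathlib

/-!
# Cayley transforms over the field of `p`-adic numbers
-/

set_option autoImplicit false

namespace Pool.Agent.VO

open Matrix Polynomial Topology

section

variable {F : Type} [Field F] {m : ℕ}

theorem cay_char (A g : Matrix (Fin m) (Fin m) F) (t : F)
    (hg : (1 - t • A) * g = 1 + t • A) (z : F) :
    (1 - t • A).det * g.charpoly.eval z = ((z - 1) • (1 : Matrix (Fin m) (Fin m) F) -
      (t * (z + 1)) • A).det := by
  rw [Matrix.eval_charpoly, ← Matrix.det_mul]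
  congr 1
  rw [Matrix.mul_sub, hg]
  have h1 : Matrix.scalar (Fin m) z = z • (1 : Matrix (Fin m) (Fin m) F) := by
    rw [Matrix.smul_one_eq_diagonal]
    rfl
  rw [h1, Matrix.mul_smul, Matrix.mul_one]
  module

theorem cay_char2 (A : Matrix (Fin m) (Fin m) F) (z s : F) (hs : s ≠ 0) :
    ((z - 1) • (1 : Matrix (Fin m) (Fin m) F) - s • A).det =
      s ^ m * A.charpoly.eval ((z - 1) / s) := by
  rw [Matrix.eval_charpoly]
  have h1 : Matrix.scalar (Fin m) ((z - 1) / s) = ((z - 1) / s) • (1 : Matrix (Fin m) (Fin m) F) := by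
    rw [Matrix.smul_one_eq_diagonal]
    rfl
  have h2 : (z - 1) • (1 : Matrix (Fin m) (Fin m) F) - s • A =
      s • (Matrix.scalar (Fin m) ((z - 1) / s) - A) := by
    rw [h1, smul_sub, smul_smul, mul_div_cancel₀ _ hs]
  rw [h2, Matrix.det_smul, Fintype.card_fin]

theorem cay_orth (J A g : Matrix (Fin m) (Fin m) F) (t : F) (hA : A.transpose * J = -(J * A))
    (hN : IsUnit (1 - t • A).det) (hg : (1 - t • A) * g = 1 + t • A) :
    g.transpose * J * g = J := by
  set N := 1 - t • A with hNd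
  set P := 1 + t • A with hPd
  have hNi : N⁻¹ * N = 1 := Matrix.nonsing_inv_mul N hN
  have hNi' : N * N⁻¹ = 1 := Matrix.mul_nonsing_inv N hN
  have hcomm : N * P = P * N := by
    rw [hNd, hPd]
    generalize t • A = B
    noncomm_ring
  have hg1 : g = N⁻¹ * P := by
    rw [← hg, ← Matrix.mul_assoc, hNi, Matrix.one_mul]
  have hg2 : g = P * N⁻¹ := by
    rw [hg1]
    calc N⁻¹ * P = N⁻¹ * P * (N * N⁻¹) := by rw [hNi', Matrix.mul_one]
      _ = N⁻¹ * (P * N) * N⁻¹ := by simp only [Matrix.mul_assoc]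
      _ = N⁻¹ * (N * P) * N⁻¹ := by rw [hcomm]
      _ = (N⁻¹ * N) * P * N⁻¹ := by simp only [Matrix.mul_assoc]
      _ = P * N⁻¹ := by rw [hNi, Matrix.one_mul]
  have h1 : P.transpose * J = J * N := by
    rw [hPd, hNd, Matrix.transpose_add, Matrix.transpose_smul, Matrix.transpose_one,
      Matrix.add_mul, Matrix.mul_sub, Matrix.smul_mul, hA, Matrix.mul_smul, Matrix.one_mul,
      Matrix.mul_one, smul_neg, sub_eq_add_neg]
  have h2 : N.transpose * J = J * P := by
    rw [hPd, hNd, Matrix.transpose_sub, Matrix.transpose_smul, Matrix.transpose_one,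
      Matrix.sub_mul, Matrix.mul_add, Matrix.smul_mul, hA, Matrix.mul_smul, Matrix.one_mul,
      Matrix.mul_one, smul_neg, sub_neg_eq_add]
  have h3 : (N⁻¹).transpose * N.transpose = 1 := by
    rw [← Matrix.transpose_mul, hNi', Matrix.transpose_one]
  calc g.transpose * J * g = (P * N⁻¹).transpose * J * (N⁻¹ * P) := by rw [← hg2, ← hg1]
    _ = (N⁻¹).transpose * (P.transpose * J) * (N⁻¹ * P) := by
        rw [Matrix.transpose_mul]
        simp only [Matrix.mul_assoc]
    _ = (N⁻¹).transpose * (J * N) * (N⁻¹ * P) := by rw [h1]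
    _ = (N⁻¹).transpose * (J * (N * N⁻¹) * P) := by simp only [Matrix.mul_assoc]
    _ = (N⁻¹).transpose * (J * P) := by rw [hNi', Matrix.mul_one]
    _ = (N⁻¹).transpose * (N.transpose * J) := by rw [h2]
    _ = ((N⁻¹).transpose * N.transpose) * J := by simp only [Matrix.mul_assoc]
    _ = J := by rw [h3, Matrix.one_mul]

end

section

variable {p : ℕ} [Fact p.Prime]

theorem p_not_sq : ¬ IsSquare (p : ℚ_[p]) := by
  rintro ⟨r, hr⟩
  have hp : (1 : ℝ) < p := by exact_mod_cast (Fact.out : p.Prime).one_lt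
  have hp0 : (p : ℚ_[p]) ≠ 0 := by
    exact_mod_cast (Fact.out : p.Prime).ne_zero
  have hr0 : r ≠ 0 := by
    rintro rfl
    rw [mul_zero] at hr
    exact hp0 hr
  have h1 : ‖(p : ℚ_[p])‖ = ‖r‖ * ‖r‖ := by rw [hr, norm_mul]
  rw [Padic.norm_p, Padic.norm_eq_zpow_neg_valuation hr0, ← zpow_add₀ (by positivity),
    ← _root_.zpow_neg_one] at h1
  have h2 := zpow_right_injective₀ (by positivity) (ne_of_gt hp) h1
  omega

theorem q_classes (a b : ℚ_[p]) (ha : a ≠ 0) (hb : b ≠ 0) :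
    ∃ x y x' y' : ℚ_[p],
      ¬ IsSquare ((a * x ^ 2 + b * y ^ 2) * (a * x' ^ 2 + b * y' ^ 2)) := by
  by_contra hcon
  push Not at hcon
  obtain ⟨s, hs⟩ := hcon 1 0 0 1
  have hs1 : a * b = s * s := by
    rw [← hs]
    ring
  have hs0 : s ≠ 0 := by
    rintro rfl
    rw [mul_zero] at hs1
    exact mul_ne_zero ha hb hs1
  have key : ∀ x y : ℚ_[p], IsSquare (x ^ 2 + y ^ 2) := by
    intro x y
    have h1 := hcon 1 0 (x / a) (y / s)
    have h2 : (a * 1 ^ 2 + b * 0 ^ 2) * (a * (x / a) ^ 2 + b * (y / s) ^ 2) = x ^ 2 + y ^ 2 := by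
      have h3 : (a * 1 ^ 2 + b * 0 ^ 2) * (a * (x / a) ^ 2 + b * (y / s) ^ 2) =
          x ^ 2 + (a * b) * (y / s) ^ 2 := by
        field_simp
        ring
      rw [h3, hs1]
      field_simp
    rwa [h2] at h1
  have h2 : ∀ n : ℕ, IsSquare (n : ℚ_[p]) := by
    intro n
    induction n with
    | zero => exact ⟨0, by simp⟩
    | succ n ih =>
      obtain ⟨r, hr⟩ := ih
      have h3 := key r 1
      rw [one_pow, pow_two, ← hr] at h3
      rw [Nat.cast_succ]
      exact h3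
  exact p_not_sq (h2 p)

/-- The Cayley transforms near `1` without eigenvalues that are roots of unity, except `1`. -/
theorem cay0 {m : ℕ} (J A : Matrix (Fin m) (Fin m) ℚ_[p])
    (hA : A.transpose * J = -(J * A)) (U : Set (Matrix (Fin m) (Fin m) ℚ_[p])) (hU : U ∈ 𝓝 1) :
    ∃ (g : Matrix (Fin m) (Fin m) ℚ_[p]) (t : ℚ_[p]), g ∈ U ∧ g.transpose * J * g = J ∧ t ≠ 0 ∧
      (1 - t • A).det ≠ 0 ∧ (1 - t • A) * g = 1 + t • A ∧
      ∀ j : ℕ, 0 < j → ∀ z : AlgebraicClosure ℚ_[p], z ^ j = 1 → z ≠ 1 →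
        aeval z g.charpoly ≠ 0 := by
  classical
  let E := AlgebraicClosure ℚ_[p]
  let φ : ℚ_[p] →+* E := algebraMap ℚ_[p] E
  have hφ : Function.Injective φ := φ.injective
  -- the bad set
  let RU : Set E := {z | ∃ j : ℕ, 0 < j ∧ z ^ j = 1}
  have hRU : RU.Countable := by
    have h1 : RU = ⋃ j : ℕ, {z : E | 0 < j ∧ z ^ j = 1} := by
      ext z
      simp [RU]
    rw [h1]
    apply Set.countable_iUnion
    intro j
    by_cases hj : 0 < j
    · apply Set.Finite.countable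
      apply ((Polynomial.nthRoots j (1 : E)).toFinset.finite_toSet).subset
      intro z hz
      rw [Finset.mem_coe, Multiset.mem_toFinset, Polynomial.mem_nthRoots hj]
      exact hz.2
    · have : {z : E | 0 < j ∧ z ^ j = 1} = ∅ := by
        ext z
        simp [hj]
      rw [this]
      exact Set.countable_empty
  let RT : Set E := {y | (A.charpoly.map φ).eval y = 0}
  have hRT : RT.Countable := by
    apply Set.Finite.countable
    apply ((A.charpoly.map φ).roots.toFinset.finite_toSet).subset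
    intro y hy
    rw [Finset.mem_coe, Multiset.mem_toFinset, Polynomial.mem_roots']
    exact ⟨((Matrix.charpoly_monic A).map φ).ne_zero, hy⟩
  let T : Set ℚ_[p] := φ ⁻¹' ((fun q : E × E => (q.1 - 1) / ((q.1 + 1) * q.2)) '' (RU ×ˢ RT))
  have hT : T.Countable := ((hRU.prod hRT).image _).preimage hφ
  have hT0 : (T ∪ {0}).Countable := hT.union (Set.countable_singleton 0)
  have hdense : Dense (T ∪ {0})ᶜ := hT0.dense_compl ℚ_[p]
  -- the path
  let G : ℚ_[p] → Matrix (Fin m) (Fin m) ℚ_[p] := fun t =>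
    ((1 - t • A).det)⁻¹ • ((1 - t • A).adjugate * (1 + t • A))
  have hdet : Continuous fun t : ℚ_[p] => (1 - t • A).det := by
    apply Continuous.matrix_det
    fun_prop
  have hG0 : G 0 = 1 := by
    simp [G]
  have hG : ContinuousAt G 0 := by
    apply ContinuousAt.fun_smul
    · apply ContinuousAt.inv₀ hdet.continuousAt
      simp
    · apply Continuous.continuousAt
      apply Continuous.matrix_mul
      · apply Continuous.matrix_adjugate
        fun_prop
      · fun_prop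
  have hev : ∀ᶠ t in 𝓝 (0 : ℚ_[p]), G t ∈ U ∧ (1 - t • A).det ≠ 0 := by
    apply Filter.Eventually.and
    · apply hG
      rw [hG0]
      exact hU
    · apply hdet.continuousAt.eventually_ne
      simp
  obtain ⟨t, htT, htU, htN⟩ := hdense.inter_nhds_nonempty hev
  rw [Set.mem_compl_iff, Set.mem_union, not_or, Set.mem_singleton_iff] at htT
  obtain ⟨htT, ht0⟩ := htT
  set N := 1 - t • A with hNd
  set g := G t with hgd
  have hNg : N * g = 1 + t • A := by
    have : g = N.det⁻¹ • (N.adjugate * (1 + t • A)) := rfl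
    rw [this, Matrix.mul_smul, ← Matrix.mul_assoc, Matrix.mul_adjugate, Matrix.smul_mul, smul_smul,
      inv_mul_cancel₀ htN, one_smul, Matrix.one_mul]
  refine ⟨g, t, htU, cay_orth J A g t hA htN.isUnit hNg, ht0, htN, hNg, ?_⟩
  intro j hj z hz2 hz3 hz1
  have ht' : φ t ≠ 0 := by
    intro h
    apply ht0
    apply hφ
    rw [h, map_zero]
  have hNg' : (1 - φ t • A.map φ) * g.map φ = 1 + φ t • A.map φ := by
    have h3 := congrArg (fun B : Matrix (Fin m) (Fin m) ℚ_[p] => φ.mapMatrix B) hNg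
    simp only [map_mul, map_add, map_one] at h3
    have h4 : φ.mapMatrix N = 1 - φ t • A.map φ := by
      rw [hNd, map_sub, map_one]
      congr 1
      ext i j
      simp
    have h5 : φ.mapMatrix (t • A) = φ t • A.map φ := by
      ext i j
      simp
    rw [h4, h5] at h3
    exact h3
  have h3 := cay_char (A.map φ) (g.map φ) (φ t) hNg' z
  have h4 : (g.map φ).charpoly.eval z = 0 := by
    rw [Matrix.charpoly_map, Polynomial.eval_map_algebraMap, hz1]
  rw [h4, mul_zero] at h3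
  by_cases hz4 : z = -1
  · subst hz4
    rw [neg_add_cancel, mul_zero, zero_smul, sub_zero, Matrix.det_smul, Matrix.det_one,
      mul_one] at h3
    apply pow_ne_zero _ _ h3.symm
    intro h
    have h6 : (2 : E) = 0 := by linear_combination -h
    exact two_ne_zero h6
  have hz5 : z + 1 ≠ 0 := by
    intro h
    apply hz4
    linear_combination h
  have hz6 : z - 1 ≠ 0 := sub_ne_zero.mpr hz3
  have hs : φ t * (z + 1) ≠ 0 := mul_ne_zero ht' hz5
  rw [cay_char2 (A.map φ) z _ hs] at h3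
  have h5 := (mul_eq_zero.mp h3.symm).resolve_left (pow_ne_zero _ hs)
  rw [Matrix.charpoly_map] at h5
  apply htT
  refine ⟨(z, (z - 1) / (φ t * (z + 1))), ⟨⟨j, hj, hz2⟩, h5⟩, ?_⟩
  change (z - 1) / ((z + 1) * ((z - 1) / (φ t * (z + 1)))) = φ t
  rw [mul_div_assoc', mul_comm (φ t) (z + 1), mul_div_mul_left _ _ hz5, div_div_cancel₀ hz6]

theorem coprime_of {R : ℚ_[p][X]} (h1 : R.eval 1 ≠ 0)
    (h : ∀ j : ℕ, 0 < j → ∀ z : AlgebraicClosure ℚ_[p], z ^ j = 1 → z ≠ 1 → aeval z R ≠ 0)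
    (j : ℕ) (hj : 0 < j) : IsCoprime R (X ^ j - 1) := by
  refine (Polynomial.isCoprime_iff_aeval_ne_zero_of_isAlgClosed ℚ_[p] (AlgebraicClosure ℚ_[p])
    _ _).mpr ?_
  intro z
  by_contra hcon
  push Not at hcon
  obtain ⟨hz1, hz2⟩ := hcon
  rw [map_sub, map_pow, aeval_X, map_one, sub_eq_zero] at hz2
  refine h j hj z hz2 ?_ hz1
  rintro rfl
  apply h1
  apply (algebraMap ℚ_[p] (AlgebraicClosure ℚ_[p])).injective
  rw [map_zero, ← hz1, ← map_one (algebraMap ℚ_[p] (AlgebraicClosure ℚ_[p])),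
    Polynomial.aeval_algebraMap_apply]
  rfl

/-- The Cayley transforms, `m` even. -/
theorem cay_even {m : ℕ} (J A : Matrix (Fin m) (Fin m) ℚ_[p])
    (hA : A.transpose * J = -(J * A)) (hA0 : A.charpoly.eval 0 ≠ 0)
    (U : Set (Matrix (Fin m) (Fin m) ℚ_[p])) (hU : U ∈ 𝓝 1) :
    ∃ g : Matrix (Fin m) (Fin m) ℚ_[p], g ∈ U ∧ g.transpose * J * g = J ∧
      (∀ j : ℕ, 0 < j → IsCoprime g.charpoly (X ^ j - 1)) := by
  obtain ⟨g, t, hgU, hgJ, ht0, htN, hNg, hz⟩ := cay0 J A hA U hU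
  have h2 : (2 : ℚ_[p]) ≠ 0 := two_ne_zero
  refine ⟨g, hgU, hgJ, coprime_of ?_ hz⟩
  intro h
  have h3 := cay_char A g t hNg 1
  have h4 : t * (1 + 1) ≠ 0 := mul_ne_zero ht0 (by norm_num)
  rw [cay_char2 A 1 _ h4, sub_self, zero_div, h, mul_zero] at h3
  exact mul_ne_zero (pow_ne_zero _ h4) hA0 h3.symm

/-- The Cayley transforms, `m` odd. -/
theorem cay_odd {m : ℕ} (hm : Odd m) (J A : Matrix (Fin m) (Fin m) ℚ_[p])
    (hA : A.transpose * J = -(J * A)) (ψ : ℚ_[p][X]) (hψ : A.charpoly = X * ψ)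
    (hψ0 : ψ.eval 0 ≠ 0) (U : Set (Matrix (Fin m) (Fin m) ℚ_[p])) (hU : U ∈ 𝓝 1) :
    ∃ (g : Matrix (Fin m) (Fin m) ℚ_[p]) (R : ℚ_[p][X]), g ∈ U ∧ g.transpose * J * g = J ∧
      g.charpoly = (X - 1) * R ∧ (∀ j : ℕ, 0 < j → IsCoprime R (X ^ j - 1)) ∧
      (R.eval 1 ≠ 0 ∧ R.eval (-1) ≠ 0) ∧ IsSquare (R.eval 1 * R.eval (-1) * ψ.eval 0) := by
  classical
  obtain ⟨n, hn⟩ := hm
  obtain ⟨g, t, hgU, hgJ, ht0, htN, hNg, hz⟩ := cay0 J A hA U hU
  set N := 1 - t • A with hNd
  have h2 : (2 : ℚ_[p]) ≠ 0 := two_ne_zero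
  have hpow : ∀ x : ℚ_[p], x ^ m = x ^ (2 * n + 1) := fun x => by rw [hn]
  -- the value at `1`
  have hroot : g.charpoly.eval 1 = 0 := by
    have h3 := cay_char A g t hNg 1
    rw [cay_char2 A 1 (t * (1 + 1)) (mul_ne_zero ht0 (by norm_num)), sub_self, zero_div, hψ, eval_mul,
      eval_X, zero_mul, mul_zero] at h3
    exact (mul_eq_zero.mp h3).resolve_left htN
  obtain ⟨R, hR⟩ := Polynomial.dvd_iff_isRoot.mpr hroot
  rw [Polynomial.C_1] at hR
  have hRm1 : N.det * R.eval (-1) = (2 ^ n) ^ 2 := by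
    have h3 := cay_char A g t hNg (-1)
    rw [hR, eval_mul, eval_sub, eval_X, eval_one, neg_add_cancel, mul_zero, zero_smul, sub_zero,
      Matrix.det_smul, Matrix.det_one, mul_one, Fintype.card_fin, hpow] at h3
    have h4 : (-1 - 1 : ℚ_[p]) ^ (2 * n + 1) = (-1 - 1) * (2 ^ n) ^ 2 := by
      have : (-1 - 1 : ℚ_[p]) = -2 := by norm_num
      rw [this, pow_succ, Even.neg_pow (even_two_mul n), pow_mul, mul_comm, ← pow_mul, ← pow_mul,
        mul_comm n 2, pow_mul]
    rw [h4] at h3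
    have h5 : (-1 - 1 : ℚ_[p]) ≠ 0 := by norm_num
    apply mul_left_cancel₀ h5
    rw [← h3]
    ring
  have hRz : ∀ z : ℚ_[p], z ≠ 1 → z ≠ -1 →
      N.det * R.eval z = (t * (z + 1)) ^ (2 * n) * ψ.eval ((z - 1) / (t * (z + 1))) := by
    intro z hz1 hz2
    have hs : t * (z + 1) ≠ 0 := mul_ne_zero ht0 (by
      intro h
      apply hz2
      linear_combination h)
    have h3 := cay_char A g t hNg z
    rw [cay_char2 A z _ hs, hR, hψ, eval_mul, eval_mul, eval_sub, eval_X, eval_one, eval_X, hpow,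
      pow_succ] at h3
    have h5 : z - 1 ≠ 0 := sub_ne_zero.mpr hz1
    apply mul_left_cancel₀ h5
    calc (z - 1) * (N.det * R.eval z) = N.det * ((z - 1) * R.eval z) := by ring
      _ = (t * (z + 1)) ^ (2 * n) * (t * (z + 1)) *
          ((z - 1) / (t * (z + 1)) * ψ.eval ((z - 1) / (t * (z + 1)))) := h3
      _ = (t * (z + 1)) ^ (2 * n) * (t * (z + 1) * ((z - 1) / (t * (z + 1)))) *
          ψ.eval ((z - 1) / (t * (z + 1))) := by ring
      _ = _ := by rw [mul_div_cancel₀ _ hs]; ring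
  have hR1 : N.det * R.eval 1 = ((2 * t) ^ n) ^ 2 * ψ.eval 0 := by
    have hc1 : ContinuousAt (fun z : ℚ_[p] => N.det * R.eval z) 1 :=
      (continuous_const.mul R.continuous).continuousAt
    have hc2 : ContinuousAt (fun z : ℚ_[p] =>
        (t * (z + 1)) ^ (2 * n) * ψ.eval ((z - 1) / (t * (z + 1)))) 1 := by
      apply ContinuousAt.mul
      · fun_prop
      · apply ContinuousAt.comp (g := fun y => ψ.eval y)
        · exact ψ.continuous.continuousAt
        · apply ContinuousAt.div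
          · fun_prop
          · fun_prop
          · exact mul_ne_zero ht0 (by norm_num)
    have h3 : ∀ᶠ z in 𝓝[≠] (1 : ℚ_[p]), N.det * R.eval z =
        (t * (z + 1)) ^ (2 * n) * ψ.eval ((z - 1) / (t * (z + 1))) := by
      have h4 : ∀ᶠ z in 𝓝 (1 : ℚ_[p]), z ≠ -1 := by
        apply continuousAt_id.eventually_ne
        intro h
        apply h2
        simp only [id] at h
        linear_combination h
      filter_upwards [self_mem_nhdsWithin, mem_nhdsWithin_of_mem_nhds h4] with z hz hz'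
      exact hRz z hz hz'
    have h4 := (hc1.eventuallyEq_nhds_iff_eventuallyEq_nhdsNE hc2).mp h3
    have h5 := h4.self_of_nhds
    simp only at h5
    rw [h5, sub_self, zero_div, ← pow_mul, mul_comm n 2]
    congr 2
    ring
  have hR1' : R.eval 1 ≠ 0 := by
    intro h
    rw [h, mul_zero] at hR1
    have h3 : (2 * t) ^ n ≠ 0 := pow_ne_zero _ (mul_ne_zero h2 ht0)
    exact mul_ne_zero (pow_ne_zero _ h3) hψ0 hR1.symm
  have hRm1' : R.eval (-1) ≠ 0 := by
    intro h
    rw [h, mul_zero] at hRm1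
    exact pow_ne_zero 2 (pow_ne_zero n h2) hRm1.symm
  refine ⟨g, R, hgU, hgJ, hR, coprime_of hR1' ?_, ⟨hR1', hRm1'⟩, ?_⟩
  · intro j hj z hz1 hz2 hz3
    apply hz j hj z hz1 hz2
    rw [hR, map_mul, hz3, mul_zero]
  · refine ⟨(2 * t) ^ n * 2 ^ n * ψ.eval 0 / N.det, ?_⟩
    have h3 : R.eval 1 = ((2 * t) ^ n) ^ 2 * ψ.eval 0 / N.det := by
      rw [← hR1]
      field_simp
    have h4 : R.eval (-1) = (2 ^ n) ^ 2 / N.det := by
      rw [← hRm1]
      field_simp
    rw [h3, h4]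
    ring

end

end Pool.Agent.VO
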