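import Mathlib

/-!
# Open images
-/

set_option autoImplicit false

namespace Pool.Agent.VO

open Topology

/-- The image of `ρ` contains a neighbourhood of the identity in the orthogonal group of some
nondegenerate symmetric bilinear form (with the matrix `J`) over the field of `p`-adic numbers. -/
def OpenInOrthogonalGroup {G : Type} {m p : ℕ} [Fact p.Prime]
    (ρ : G → Matrix (Fin m) (Fin m) ℚ_[p]) : Prop :=
  ∃ J : Matrix (Fin m) (Fin m) ℚ_[p], J.transpose = J ∧ J.det ≠ 0 ∧
    ∃ U ∈ 𝓝 (1 : Matrix (Fin m) (Fin m) ℚ_[p]), ∀ g ∈ U, g.transpose * J * g = J →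
      g ∈ Set.range ρ

end Pool.Agent.VO
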