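import Mathlib

/-!
# Elements of the Lie algebra of an orthogonal group in odd dimension
-/

set_option autoImplicit false

namespace Pool.Agent.VO

open Matrix Polynomial

section

variable {k : Type} [Field k]

/-- Diagonalization of symmetric matrices. -/
theorem diag_exists [Invertible (2 : k)] {m : ℕ} (J : Matrix (Fin m) (Fin m) k)
    (hJ : J.transpose = J) : ∃ (M : Matrix (Fin m) (Fin m) k) (d : Fin m → k),
      IsUnit M.det ∧ M.transpose * J * M = diagonal d := by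
  let B : LinearMap.BilinForm k (Fin m → k) := Matrix.toBilin' J
  have hB : B.IsSymm := by
    rw [LinearMap.BilinForm.isSymm_def]
    intro x y
    simp only [B, Matrix.toBilin'_apply']
    have h1 : x ⬝ᵥ J *ᵥ y = (x ᵥ* J) ⬝ᵥ y := by rw [Matrix.dotProduct_mulVec]
    rw [h1, ← Matrix.mulVec_transpose, hJ, dotProduct_comm]
  obtain ⟨v, hv⟩ := LinearMap.BilinForm.exists_orthogonal_basis
    (LinearMap.BilinForm.isSymm_iff.mp hB)
  have hm : Module.finrank k (Fin m → k) = m := by simp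
  let b : Module.Basis (Fin m) k (Fin m → k) := v.reindex (finCongr hm)
  have hb : ∀ i j, i ≠ j → B (b i) (b j) = 0 := by
    intro i j hij
    have h1 := hv (i := (finCongr hm).symm i) (j := (finCongr hm).symm j) (by
      intro h
      exact hij ((finCongr hm).symm.injective h))
    simpa [b] using h1
  let M : Matrix (Fin m) (Fin m) k := (Pi.basisFun k (Fin m)).toMatrix b
  have hM : ∀ i j, M i j = b j i := fun i j => rfl
  refine ⟨M, fun i => B (b i) (b i), ?_, ?_⟩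
  · have h1 : M.det = (Pi.basisFun k (Fin m)).det b := rfl
    rw [h1]
    exact Module.Basis.isUnit_det _ b
  · have h2 : ∀ i j, (M.transpose * J * M) i j = B (b i) (b j) := by
      intro i j
      simp only [B, Matrix.toBilin'_apply']
      rw [Matrix.mul_assoc, Matrix.mul_apply]
      rfl
    ext i j
    rw [h2]
    by_cases hij : i = j
    · subst hij
      rw [diagonal_apply_eq]
    · rw [diagonal_apply_ne _ hij, hb i j hij]

/-- The `3 × 3` block. -/
def T3 (d : Fin 3 → k) (w : Fin 3 → k) : Matrix (Fin 3) (Fin 3) k :=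
  !![0, -w 2 / d 0, w 1 / d 0; w 2 / d 1, 0, -w 0 / d 1; -w 1 / d 2, w 0 / d 2, 0]

theorem t3_char (d : Fin 3 → k) (w : Fin 3 → k) (h0 : d 0 ≠ 0) (h1 : d 1 ≠ 0) (h2 : d 2 ≠ 0) :
    (T3 d w).charpoly = X * (X ^ 2 +
      C ((d 0 * w 0 ^ 2 + d 1 * w 1 ^ 2 + d 2 * w 2 ^ 2) / (d 0 * d 1 * d 2))) := by
  rw [Matrix.charpoly, Matrix.det_fin_three]
  have e : (d 0 * w 0 ^ 2 + d 1 * w 1 ^ 2 + d 2 * w 2 ^ 2) / (d 0 * d 1 * d 2) =
    (w 0 / d 1) * (w 0 / d 2) + (w 1 / d 0) * (w 1 / d 2) + (w 2 / d 0) * (w 2 / d 1) := by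
    field_simp
  rw [e]
  have f1 : -w 2 / d 0 = -(w 2 / d 0) := by ring
  have f2 : -w 0 / d 1 = -(w 0 / d 1) := by ring
  have f3 : -w 1 / d 2 = -(w 1 / d 2) := by ring
  have e2 : C ((w 0 / d 1) * (w 2 / d 0) * (w 1 / d 2)) =
      C ((w 0 / d 2) * (w 2 / d 1) * (w 1 / d 0)) := by
    congr 1
    field_simp
  simp only [C_mul] at e2
  simp [T3, f1, f2, f3]
  linear_combination e2

theorem t3_skew (d : Fin 3 → k) (w : Fin 3 → k) (h0 : d 0 ≠ 0) (h1 : d 1 ≠ 0) (h2 : d 2 ≠ 0)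
    (i j : Fin 3) : d i * T3 d w i j = -(d j * T3 d w j i) := by
  fin_cases i <;> fin_cases j <;> simp [T3] <;> field_simp

/-- The blocks of size `2`. -/
def T2 (a b : k) : Matrix (Fin 2) (Fin 2) k := !![0, -1 / a; 1 / b, 0]

theorem t2_det (a b : k) (ha : a ≠ 0) (hb : b ≠ 0) : (T2 a b).det ≠ 0 := by
  rw [T2, Matrix.det_fin_two_of]
  have : (0 : k) * 0 - -1 / a * (1 / b) = 1 / (a * b) := by
    field_simp
    ring
  rw [this]
  exact one_div_ne_zero (mul_ne_zero ha hb)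

/-- The big matrix. -/
def TT {n : ℕ} (d : Fin 3 ⊕ (Fin 2 × Fin n) → k) (w : Fin 3 → k) :
    Matrix (Fin 3 ⊕ (Fin 2 × Fin n)) (Fin 3 ⊕ (Fin 2 × Fin n)) k :=
  fromBlocks (T3 (fun i => d (Sum.inl i)) w) 0 0
    (blockDiagonal fun i => T2 (d (Sum.inr (0, i))) (d (Sum.inr (1, i))))

theorem tt_skew {n : ℕ} (d : Fin 3 ⊕ (Fin 2 × Fin n) → k) (w : Fin 3 → k) (hd : ∀ i, d i ≠ 0)
    (i j : Fin 3 ⊕ (Fin 2 × Fin n)) : d i * TT d w i j = -(d j * TT d w j i) := by
  rcases i with i | ⟨i, a⟩ <;> rcases j with j | ⟨j, b⟩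
  · exact t3_skew (fun i => d (Sum.inl i)) w (hd _) (hd _) (hd _) i j
  · simp [TT]
  · simp [TT]
  · by_cases hab : a = b
    · subst hab
      simp only [TT, fromBlocks_apply₂₂, blockDiagonal_apply_eq]
      have h0 := hd (Sum.inr (0, a))
      have h1 := hd (Sum.inr (1, a))
      fin_cases i <;> fin_cases j <;> simp [T2] <;> field_simp
    · simp only [TT, fromBlocks_apply₂₂]
      rw [blockDiagonal_apply_ne _ _ _ hab, blockDiagonal_apply_ne _ _ _ (Ne.symm hab)]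
      simp

theorem tt_char {n : ℕ} (d : Fin 3 ⊕ (Fin 2 × Fin n) → k) (hd : ∀ i, d i ≠ 0) :
    ∃ (c : k) (ψ : k[X]), c ≠ 0 ∧ ψ.eval 0 = c ∧ ∀ w, (TT d w).charpoly = X * ((X ^ 2 +
      C ((d (Sum.inl 0) * w 0 ^ 2 + d (Sum.inl 1) * w 1 ^ 2 + d (Sum.inl 2) * w 2 ^ 2) /
        (d (Sum.inl 0) * d (Sum.inl 1) * d (Sum.inl 2)))) * ψ) := by
  set N : Matrix (Fin 2 × Fin n) (Fin 2 × Fin n) k :=
    blockDiagonal fun i => T2 (d (Sum.inr (0, i))) (d (Sum.inr (1, i))) with hN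
  refine ⟨N.charpoly.eval 0, N.charpoly, ?_, rfl, ?_⟩
  · intro h
    have h1 := Matrix.det_eq_sign_charpoly_coeff N
    rw [Polynomial.coeff_zero_eq_eval_zero, h, mul_zero, hN, det_blockDiagonal,
      Finset.prod_eq_zero_iff] at h1
    obtain ⟨i, -, hi⟩ := h1
    exact t2_det _ _ (hd _) (hd _) hi
  · intro w
    rw [TT, Matrix.charpoly_fromBlocks_zero₂₁, t3_char _ _ (hd _) (hd _) (hd _), mul_assoc]

/-- Transport of skew matrices from a diagonal form. -/
theorem transport {m : ℕ} {ι : Type} [Fintype ι] [DecidableEq ι] (J M : Matrix (Fin m) (Fin m) k)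
    (d : Fin m → k) (hM : IsUnit M.det) (hMd : M.transpose * J * M = diagonal d) (e : ι ≃ Fin m)
    (B : Matrix ι ι k) (hB : ∀ i j, d (e i) * B i j = -(d (e j) * B j i)) :
    ∃ A : Matrix (Fin m) (Fin m) k, A.transpose * J = -(J * A) ∧ A.charpoly = B.charpoly := by
  let A₀ : Matrix (Fin m) (Fin m) k := Matrix.reindex e e B
  have hMi : M * M⁻¹ = 1 := Matrix.mul_nonsing_inv M hM
  have hMi' : M⁻¹ * M = 1 := Matrix.nonsing_inv_mul M hM
  have hA₀ : A₀.transpose * diagonal d = -(diagonal d * A₀) := by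
    ext i j
    rw [Matrix.mul_diagonal, Matrix.neg_apply, Matrix.diagonal_mul, transpose_apply]
    have h1 := hB (e.symm j) (e.symm i)
    simp only [Equiv.apply_symm_apply] at h1
    simp only [A₀, Matrix.reindex_apply, Matrix.submatrix_apply]
    rw [mul_comm]
    exact h1
  have hJM : J = (M⁻¹).transpose * diagonal d * M⁻¹ := by
    rw [← hMd]
    have h1 : (M⁻¹).transpose * M.transpose = 1 := by
      rw [← Matrix.transpose_mul, hMi, Matrix.transpose_one]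
    calc J = ((M⁻¹).transpose * M.transpose) * J * (M * M⁻¹) := by
          rw [h1, hMi, Matrix.one_mul, Matrix.mul_one]
      _ = _ := by simp only [Matrix.mul_assoc]
  refine ⟨M * A₀ * M⁻¹, ?_, ?_⟩
  · have h2 : (M * A₀ * M⁻¹).transpose * J = (M⁻¹).transpose * (A₀.transpose * diagonal d) * M⁻¹ := by
      rw [Matrix.transpose_mul, Matrix.transpose_mul]
      conv_lhs => rw [hJM]
      have h1 : M.transpose * (M⁻¹).transpose = 1 := by
        rw [← Matrix.transpose_mul, hMi', Matrix.transpose_one]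
      calc (M⁻¹).transpose * (A₀.transpose * M.transpose) * ((M⁻¹).transpose * diagonal d * M⁻¹)
          = (M⁻¹).transpose * (A₀.transpose * (M.transpose * (M⁻¹).transpose) * diagonal d) * M⁻¹ := by
            simp only [Matrix.mul_assoc]
        _ = _ := by rw [h1, Matrix.mul_one]
    have h3 : J * (M * A₀ * M⁻¹) = (M⁻¹).transpose * (diagonal d * A₀) * M⁻¹ := by
      conv_lhs => rw [hJM]
      calc (M⁻¹).transpose * diagonal d * M⁻¹ * (M * A₀ * M⁻¹)
          = (M⁻¹).transpose * (diagonal d * (M⁻¹ * M) * A₀) * M⁻¹ := by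
            simp only [Matrix.mul_assoc]
        _ = _ := by rw [hMi', Matrix.mul_one]
    rw [h2, h3, hA₀, Matrix.mul_neg, Matrix.neg_mul]
  · have h1 : (M * A₀ * M⁻¹).charpoly = A₀.charpoly := by
      rw [Matrix.charpoly_mul_comm, ← Matrix.mul_assoc, hMi', Matrix.one_mul]
    rw [h1]
    exact Matrix.charpoly_reindex e _

theorem diag_ne {m : ℕ} (J M : Matrix (Fin m) (Fin m) k) (hJ0 : J.det ≠ 0)
    (d : Fin m → k) (hM : IsUnit M.det) (hMd : M.transpose * J * M = diagonal d) (i : Fin m) :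
    d i ≠ 0 := by
  have h1 : (M.transpose * J * M).det ≠ 0 := by
    rw [Matrix.det_mul, Matrix.det_mul, Matrix.det_transpose]
    exact mul_ne_zero (mul_ne_zero hM.ne_zero hJ0) hM.ne_zero
  rw [hMd, det_diagonal, Finset.prod_ne_zero_iff] at h1
  exact h1 i (Finset.mem_univ i)

/-- The Lie algebra elements with given classes, `m` odd. -/
theorem skew_odd [Invertible (2 : k)] {m : ℕ} (hm : Odd m) (hm3 : 3 ≤ m)
    (J : Matrix (Fin m) (Fin m) k) (hJ : J.transpose = J) (hJ0 : J.det ≠ 0) :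
    ∃ a b κ : k, a ≠ 0 ∧ b ≠ 0 ∧ κ ≠ 0 ∧ ∀ x y : k, ∃ (A : Matrix (Fin m) (Fin m) k)
      (ψ : k[X]), A.transpose * J = -(J * A) ∧ A.charpoly = X * ψ ∧
        ψ.eval 0 = κ * (a * x ^ 2 + b * y ^ 2) := by
  obtain ⟨M, d, hM, hMd⟩ := diag_exists J hJ
  obtain ⟨n, hn⟩ : ∃ n, m = 3 + 2 * n := by
    obtain ⟨r, hr⟩ := hm
    exact ⟨r - 1, by omega⟩
  have hcard : Fintype.card (Fin 3 ⊕ (Fin 2 × Fin n)) = Fintype.card (Fin m) := by
    simp [hn]
  let e : Fin 3 ⊕ (Fin 2 × Fin n) ≃ Fin m := Fintype.equivOfCardEq hcard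
  have hd := diag_ne J M hJ0 d hM hMd
  let d' : Fin 3 ⊕ (Fin 2 × Fin n) → k := fun i => d (e i)
  have hd' : ∀ i, d' i ≠ 0 := fun i => hd _
  obtain ⟨c, ψ, hc, hψ, hchar⟩ := tt_char d' hd'
  refine ⟨d' (Sum.inl 0), d' (Sum.inl 1),
    c / (d' (Sum.inl 0) * d' (Sum.inl 1) * d' (Sum.inl 2)), hd' _, hd' _,
    div_ne_zero hc (mul_ne_zero (mul_ne_zero (hd' _) (hd' _)) (hd' _)), ?_⟩
  intro x y
  let w : Fin 3 → k := ![x, y, 0]
  obtain ⟨A, hA, hA2⟩ := transport J M d hM hMd e (TT d' w) (fun i j => tt_skew d' w hd' i j)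
  refine ⟨A, (X ^ 2 + C ((d' (Sum.inl 0) * w 0 ^ 2 + d' (Sum.inl 1) * w 1 ^ 2 +
    d' (Sum.inl 2) * w 2 ^ 2) / (d' (Sum.inl 0) * d' (Sum.inl 1) * d' (Sum.inl 2)))) * ψ,
    hA, ?_, ?_⟩
  · rw [hA2, hchar w]
  · rw [eval_mul, hψ, eval_add, eval_pow, eval_X, eval_C]
    have h0 := hd' (Sum.inl 0)
    have h1 := hd' (Sum.inl 1)
    have h2 := hd' (Sum.inl 2)
    simp only [w, Matrix.cons_val_zero, Matrix.cons_val_one, Matrix.cons_val]
    field_simp
    ring

/-- The Lie algebra elements, `m` even. -/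
theorem skew_even [Invertible (2 : k)] {m : ℕ} (hm : Even m)
    (J : Matrix (Fin m) (Fin m) k) (hJ : J.transpose = J) (hJ0 : J.det ≠ 0) :
    ∃ A : Matrix (Fin m) (Fin m) k, A.transpose * J = -(J * A) ∧ A.charpoly.eval 0 ≠ 0 := by
  obtain ⟨M, d, hM, hMd⟩ := diag_exists J hJ
  obtain ⟨n, hn⟩ : ∃ n, m = 2 * n := by
    obtain ⟨r, hr⟩ := hm
    exact ⟨r, by omega⟩
  have hcard : Fintype.card (Fin 2 × Fin n) = Fintype.card (Fin m) := by
    simp [hn]
  let e : Fin 2 × Fin n ≃ Fin m := Fintype.equivOfCardEq hcard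
  have hd := diag_ne J M hJ0 d hM hMd
  set N : Matrix (Fin 2 × Fin n) (Fin 2 × Fin n) k :=
    blockDiagonal fun i => T2 (d (e (0, i))) (d (e (1, i))) with hN
  obtain ⟨A, hA, hA2⟩ := transport J M d hM hMd e N (by
    rintro ⟨i, a⟩ ⟨j, b⟩
    by_cases hab : a = b
    · subst hab
      rw [hN, blockDiagonal_apply_eq, blockDiagonal_apply_eq]
      have h0 := hd (e (0, a))
      have h1 := hd (e (1, a))
      fin_cases i <;> fin_cases j <;> simp [T2] <;> field_simp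
    · rw [hN, blockDiagonal_apply_ne _ _ _ hab, blockDiagonal_apply_ne _ _ _ (Ne.symm hab)]
      simp)
  refine ⟨A, hA, ?_⟩
  intro h
  have h1 := Matrix.det_eq_sign_charpoly_coeff N
  rw [Polynomial.coeff_zero_eq_eval_zero, ← hA2, h, mul_zero, hN, det_blockDiagonal,
    Finset.prod_eq_zero_iff] at h1
  obtain ⟨i, -, hi⟩ := h1
  exact t2_det _ _ (hd _) (hd _) hi

end

end Pool.Agent.VO
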