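import Pool.Agent.Lib_helper74.VL.FN
import Pool.Agent.Lib_helper46.VO.SK
import Pool.Agent.Lib_helper46.VO.CY
import Pool.Agent.Lib_helper46.VO.Defs

/-!
# One prime number with an open image
-/

set_option autoImplicit false

namespace Pool.Agent.VO

open NumberField Polynomial Topology Module Pool.Agent.VL
open Pool.Agent.RS.Main (DirichletGE)

section

variable {K : Type} [Field K] [NumberField K] [Algebra K Qbar] {m : ℕ}

/-- One place with a small cyclotomic part. -/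
theorem dge_small {V : ∀ (ℓ : ℕ) [Fact ℓ.Prime], GalK K →* Matrix (Fin m) (Fin m) ℚ_[ℓ]}
    {𝔓 : Ideal (𝓞 Qbar)} {g : GalK K} {C R : ℚ[X]} (h : Pl V 𝔓 g C R) {r : ℕ}
    (hC : C.natDegree < r) (δ : ℝ) (hδ0 : 0 ≤ δ) (hδ1 : δ < 1) :
    DirichletGE {ℓ | ∃ _ : Fact ℓ.Prime, FewTateClasses ℚ_[ℓ] (fun σ => (V ℓ σ).mulVec) r} δ := by
  obtain ⟨u, hu, hu𝔓⟩ := Pool.Agent.OS.ar_prime 𝔓 h.max
  apply Pool.Agent.VLD.dge_finite (dge_univ hδ0 hδ1) {u}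
  intro p _ hp hpB
  have hF : Fact p.Prime := ⟨hp⟩
  refine ⟨hF, one_small h hC p ?_⟩
  intro hmem
  apply hpB
  rw [Finset.mem_singleton]
  exact Pool.Agent.OS.ar_unique 𝔓 h.max.ne_top hp hu hmem hu𝔓

/-- A place near an element with few eigenvalues that are roots of unity. -/
theorem place_near {V : ∀ (ℓ : ℕ) [Fact ℓ.Prime], GalK K →* Matrix (Fin m) (Fin m) ℚ_[ℓ]}
    {S : Finset (Ideal (𝓞 K))} {P : Ideal (𝓞 K) → ℚ[X]} (hV : OrthogonalSystem S P V)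
    (p : ℕ) [Fact p.Prime] (σ : GalK K) (C₁ R₁ : ℚ_[p][X]) (hC₁ : C₁.Monic)
    (hA : (V p σ).charpoly = C₁ * R₁) (hcop : ∀ j : ℕ, 0 < j → IsCoprime R₁ (X ^ j - 1))
    (hR₁ : R₁.eval 1 ≠ 0 ∧ R₁.eval (-1) ≠ 0) :
    ∃ 𝔓 g C R, Pl V 𝔓 g C R ∧ C.natDegree ≤ C₁.natDegree ∧ (C.natDegree = C₁.natDegree →
      IsSquare ((((DD R : ℚ)) : ℚ_[p]) * (R₁.eval 1 * R₁.eval (-1)))) := by
  have h1 := lim_main (V p σ) C₁ R₁ hC₁ hA hcop hR₁
  have h2 := ((hV.continuous p).continuousAt (x := σ)).eventually h1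
  obtain ⟨𝔓, g, C, R, hg, hPl, hB⟩ := pl_near hV {p} σ _ h2
  have hp : (p : 𝓞 Qbar) ∉ 𝔓 := hB p (Finset.mem_singleton_self p) Fact.out
  obtain ⟨h3, h4⟩ := hg (C * R) C R hPl.fac (hPl.frob p hp)
  exact ⟨𝔓, g, C, R, hPl, h3, h4⟩

theorem one_prime {V : ∀ (ℓ : ℕ) [Fact ℓ.Prime], GalK K →* Matrix (Fin m) (Fin m) ℚ_[ℓ]}
    {S : Finset (Ideal (𝓞 K))} {P : Ideal (𝓞 K) → ℚ[X]} (hV : OrthogonalSystem S P V)
    (hm : 2 ≤ m) (p : ℕ) [Fact p.Prime] (J : Matrix (Fin m) (Fin m) ℚ_[p])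
    (hJ : J.transpose = J) (hJ0 : J.det ≠ 0) (U : Set (Matrix (Fin m) (Fin m) ℚ_[p]))
    (hU : U ∈ 𝓝 1) (hop : ∀ g ∈ U, g.transpose * J * g = J → g ∈ Set.range (V p))
    (δ : ℝ) (hδ0 : 0 ≤ δ) (hδ1 : δ < 1) :
    DirichletGE {ℓ | ∃ _ : Fact ℓ.Prime, FewTateClasses ℚ_[ℓ] (fun σ => (V ℓ σ).mulVec) 1} δ := by
  have : Invertible (2 : ℚ_[p]) := invertibleOfNonzero two_ne_zero
  rcases Nat.even_or_odd m with hev | hodd
  · obtain ⟨A, hA, hA0⟩ := skew_even hev J hJ hJ0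
    obtain ⟨g, hgU, hgJ, hgc⟩ := cay_even J A hA hA0 U hU
    obtain ⟨σ, rfl⟩ := hop g hgU hgJ
    obtain ⟨𝔓, g', C, R, hPl, hdeg, -⟩ := place_near hV p σ 1 _ Polynomial.monic_one
      (one_mul _).symm hgc (eval_ne_of_coprime hgc)
    rw [Polynomial.natDegree_one] at hdeg
    exact dge_small hPl (by omega) δ hδ0 hδ1
  · obtain ⟨a, b, κ, ha, hb, hκ, hab⟩ := skew_odd hodd (by
      obtain ⟨r, hr⟩ := hodd
      omega) J hJ hJ0
    obtain ⟨x, y, x', y', hxy⟩ := q_classes a b ha hb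
    obtain ⟨A, ψ, hA, hAψ, hψ⟩ := hab x y
    obtain ⟨A', ψ', hA', hAψ', hψ'⟩ := hab x' y'
    have hns : ¬ IsSquare (ψ.eval 0 * ψ'.eval 0) := by
      rintro ⟨s, hs⟩
      apply hxy
      refine ⟨s / κ, ?_⟩
      have h1 : s / κ * (s / κ) = (s * s) / (κ * κ) := by ring
      rw [h1, ← hs, hψ, hψ']
      field_simp
    have hψ0 : ψ.eval 0 ≠ 0 := by
      intro h
      apply hns
      rw [h, zero_mul]
      exact ⟨0, (mul_zero 0).symm⟩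
    have hψ0' : ψ'.eval 0 ≠ 0 := by
      intro h
      apply hns
      rw [h, mul_zero]
      exact ⟨0, (mul_zero 0).symm⟩
    obtain ⟨g, R, hgU, hgJ, hgR, hgc, hR, hsq⟩ := cay_odd hodd J A hA ψ hAψ hψ0 U hU
    obtain ⟨g', R', hgU', hgJ', hgR', hgc', hR', hsq'⟩ := cay_odd hodd J A' hA' ψ' hAψ' hψ0' U hU
    obtain ⟨σ, rfl⟩ := hop g hgU hgJ
    obtain ⟨σ', rfl⟩ := hop g' hgU' hgJ'
    have hmon : (X - 1 : ℚ_[p][X]).Monic := by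
      have := Polynomial.monic_X_sub_C (1 : ℚ_[p])
      rwa [Polynomial.C_1] at this
    have hdeg1 : (X - 1 : ℚ_[p][X]).natDegree = 1 := by
      have := Polynomial.natDegree_X_sub_C (1 : ℚ_[p])
      rwa [Polynomial.C_1] at this
    obtain ⟨𝔓, g, C, Q, hPl, hdeg, hd⟩ := place_near hV p σ (X - 1) R hmon hgR hgc hR
    obtain ⟨𝔓', g', C', Q', hPl', hdeg', hd'⟩ := place_near hV p σ' (X - 1) R' hmon hgR' hgc' hR'
    rw [hdeg1] at hdeg hdeg' hd hd'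
    by_cases hC : C.natDegree < 1
    · exact dge_small hPl hC δ hδ0 hδ1
    by_cases hC' : C'.natDegree < 1
    · exact dge_small hPl' hC' δ hδ0 hδ1
    have hC1 : C.natDegree = 1 := by omega
    have hC1' : C'.natDegree = 1 := by omega
    refine part_b hV hPl hPl' hC1 hC1' ?_ δ hδ0 hδ1
    intro hcon
    apply hns
    have h1 := cast_sq hcon p
    rw [Rat.cast_mul] at h1
    have h2 : IsSquare (((DD Q : ℚ) : ℚ_[p]) * ψ.eval 0) :=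
      sq_trans (mul_ne_zero hR.1 hR.2) (hd hC1) hsq
    have h2' : IsSquare (((DD Q' : ℚ) : ℚ_[p]) * ψ'.eval 0) :=
      sq_trans (mul_ne_zero hR'.1 hR'.2) (hd' hC1') hsq'
    have h3 : ((DD Q : ℚ) : ℚ_[p]) ≠ 0 := by exact_mod_cast dd_ne hPl.fac
    have h3' : ((DD Q' : ℚ) : ℚ_[p]) ≠ 0 := by exact_mod_cast dd_ne hPl'.fac
    have h4 : IsSquare (ψ.eval 0 * ((DD Q' : ℚ) : ℚ_[p])) :=
      sq_trans h3 (by rw [mul_comm]; exact h2) h1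
    exact sq_trans h3' h4 h2'

/-- **One prime number decides.** -/
theorem one_prime_decides {V : ∀ (ℓ : ℕ) [Fact ℓ.Prime], GalK K →* Matrix (Fin m) (Fin m) ℚ_[ℓ]}
    {S : Finset (Ideal (𝓞 K))} {P : Ideal (𝓞 K) → ℚ[X]} (hV : OrthogonalSystem S P V)
    (hm : 2 ≤ m) (h : ∃ (p : ℕ) (_ : Fact p.Prime), OpenInOrthogonalGroup (V p)) (δ : ℝ)
    (hδ0 : 0 ≤ δ) (hδ1 : δ < 1) :
    DensityGE {ℓ | ∃ _ : Fact ℓ.Prime, FewTateClasses ℚ_[ℓ] (fun σ => (V ℓ σ).mulVec) 1} δ := by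
  obtain ⟨p, hp, J, hJ, hJ0, U, hU, hop⟩ := h
  exact one_prime hV hm p J hJ hJ0 U hU hop δ hδ0 hδ1

end

end Pool.Agent.VO
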